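import Pool.Agent.Y138.UC.Conv

/-!
# MP_40dc3c_ag: the Tate conjecture for singular varieties and affine cubic hypersurfaces

Let `T = (H, C, cl, special)` be a homology theory with cycle classes on the schemes over a field `k`
(`CycleTheory`, with the axioms `IsValid`): `(H m).M X n` is the homology of `X` in degree `2 n + m`
twisted by `n`; there are the long exact sequences of closed subschemes and their open complements,
invariance under affine bundles, finiteness, a splitting axiom, and the homology of the point; `C` are
the groups of cycles modulo rational equivalence, and `special X n` is a subspace of `(H 0).M X n`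
preserved by push-forward along closed immersions, restriction to open subschemes and pull-back along
affine bundles. Over a finitely generated field `k` the Borel–Moore étale homology with the classes
invariant under the Galois group is an example, over the complex numbers the Borel–Moore homology with
the Hodge classes. `T.Algebraic X a` says that all special classes of dimension `a` on `X` are
algebraic, which for the first example is the assertion of the question for `X` and `j = a`. The
theory is weighted (`IsWeighted`) if special classes on open subschemes are restrictions of classes,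
and a class with special pull-back (or with special push-forward, if the push-forward is injective) is
special; Tate and Hodge classes are weighted, by the theory of weights. It is strict (`IsStrict`) if
moreover a special class vanishing on the complement of a closed subscheme is the push-forward of a
special class; Hodge classes are strict, and Tate classes are if the Galois group acts semisimply on
the smallest weight part of the homology.

**Theorem.**

1. If all special classes on all affine hypersurfaces `t₀ q₀(x) + ⋯ + tᵣ qᵣ(x) = 0` with `deg qᵢ ≤ 2`
   are algebraic, then they are algebraic on all separated schemes `X` of finite type over `k` which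
   admit an affine bundle whose total space is affine (by Jouanolou all quasi-projective `X`). No
   semisimplicity, weights or resolution of singularities is needed. If the theory is strict, they are
   algebraic on **all** separated schemes of finite type.
2. For arbitrary polynomials `q₀, …, qᵣ` in `x₁, …, x_N` and `a ≠ N - 1, N`: if the special classes of
   dimension `a + r + 1` on `t₀ q₀(x) + ⋯ + tᵣ qᵣ(x) = 0` are algebraic, so are those of dimension `a`
   on `q₀ = ⋯ = qᵣ = 0`.
3. In a weighted theory (for example for Tate classes) the two assertions in 2 are **equivalent**. So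
   the Tate conjecture holds for the hypersurface `t₀ q₀(x) + ⋯ + tᵣ qᵣ(x) = 0`, in each dimension less
   than its own, whenever it holds for `q₀ = ⋯ = qᵣ = 0`; in particular for all `qᵢ` if `N ≤ D + 1`,
   where special classes are algebraic on all affine schemes of finite type of dimension `≤ D` (for
   Tate classes `D = 1`, for Hodge classes `D = 3`).
4. In a strict theory the special classes of dimension `a + r + 1` on
   `t₀ q₀(x) + ⋯ + tᵣ qᵣ(x) = c(x)` are algebraic if those of dimension `a` on
   `c = q₀ = ⋯ = qᵣ = 0` are, for arbitrary polynomials `qᵢ, c` and all `a`; so, with `D` as in 3,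
   special classes are algebraic, in all dimensions, on all affine hypersurfaces which are linear in
   all but `D + 1` of the variables.
-/

set_option autoImplicit false

open CategoryTheory AlgebraicGeometry

universe u v

namespace Pool.Agent.Results.MP_40dc3c_ag.CubicHypersurfaces

open Pool.Agent.Y138.UC

/-- **Tate and Hodge classes on all varieties and on affine cubic hypersurfaces.** -/
theorem result (k : Type u) [Field k] (F : Type v) [Field F] (T : CycleTheory.{u, v} k F)
    (hT : T.IsValid) :
    -- the reduction to cubic hypersurfaces
    ((∀ (N r : ℕ) (q : Fin (r + 1) → MvPolynomial (Fin N) k),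
        (∀ i, (q i).totalDegree ≤ 2) → ∀ n, T.Algebraic (hyp q) n) →
      (∀ X : Sch k, IsVariety X →
        (∃ (E : Sch k) (f : E ⟶ X) (m : ℕ), IsBun f m ∧ IsAffine E.left ∧ IsVariety E) →
        ∀ a, T.Algebraic X a) ∧
      (T.IsStrict → ∀ X : Sch k, IsVariety X → ∀ a, T.Algebraic X a)) ∧
    -- from the hypersurface to the common zeros
    (∀ (N r : ℕ) (q : Fin (r + 1) → MvPolynomial (Fin N) k) (a : ℤ), a ≠ N → a + 1 ≠ N →
      T.Algebraic (hyp q) (a + (r + 1)) → T.Algebraic (zeros k q) a) ∧
    -- the equivalence for weighted theories
    (T.IsWeighted →
      (∀ (N r : ℕ) (q : Fin (r + 1) → MvPolynomial (Fin N) k) (a : ℤ), a ≠ N → a + 1 ≠ N →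
        (T.Algebraic (hyp q) (a + (r + 1)) ↔ T.Algebraic (zeros k q) a)) ∧
      ∀ D : ℕ, (∀ (B : Type u) [CommRing B] [Algebra k B], Algebra.FiniteType k B →
          ringKrullDim B ≤ D → ∀ a, T.Algebraic (aff k B) a) →
        ∀ (N r : ℕ) (q : Fin (r + 1) → MvPolynomial (Fin N) k) (n : ℤ),
          N ≤ D + 1 → n ≠ N + r → n ≠ N + r + 1 → T.Algebraic (hyp q) n) ∧
    -- hypersurfaces linear in a set of variables, strict theories
    (T.IsStrict →
      (∀ (N r : ℕ) (q : Fin (r + 1) → MvPolynomial (Fin N) k) (c : MvPolynomial (Fin N) k) (a : ℤ),
        T.Algebraic (zeros k (Fin.cons c q : Fin (r + 2) → MvPolynomial (Fin N) k)) a →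
          T.Algebraic (lin q c) (a + (r + 1))) ∧
      ∀ D : ℕ, (∀ (B : Type u) [CommRing B] [Algebra k B], Algebra.FiniteType k B →
          ringKrullDim B ≤ D → ∀ a, T.Algebraic (aff k B) a) →
        ∀ (N r : ℕ) (q : Fin (r + 1) → MvPolynomial (Fin N) k) (c : MvPolynomial (Fin N) k) (n : ℤ),
          N ≤ D + 1 → T.Algebraic (lin q c) n) := by
  refine ⟨fun h => ⟨?_, fun hs => hs.all_of_cubic hT h⟩,
    fun N r q a ha ha' h => hT.zeros_of_hyp q a ha ha' h,
    fun hw => ⟨fun N r q a ha ha' => hw.hyp_iff_zeros hT q a ha ha',
      fun D hD N r q n hN hn hn' => hw.hyp_of_dim hT D hD hN q n hn hn'⟩,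
    fun hs => ⟨fun N r q c a h => hs.linear_of_zeros hT q c a h,
      fun D hD N r q c n hN => hs.linear_of_dim hT D hD hN q c n⟩⟩
  rintro X hX ⟨E, f, m, hf, hE, hE'⟩ a
  exact hT.bundle_of_cubic h f m hf hE' hX a

end Pool.Agent.Results.MP_40dc3c_ag.CubicHypersurfaces
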