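import Mathlib
import Pool.Agent.Y114.GF.MainS

/-!
# Every prime `ℓ`: semisimplicity, and all Tate classes are generated in degree two, from finitely
# many Frobenius polynomials

Let `M i` be finitely many pure motives over a number field `F`, of the same odd weight `w`, with
polarizations; `V ℓ i` is the `ℓ`-adic realization of `M i`, of dimension `n i`, with the action
`ρ ℓ i` of the absolute Galois group of `F`, `ω ℓ i` is the alternating form given by the
polarization and `χ ℓ` the power with exponent `- w` of the cyclotomic character.  Nothing is
assumed on semisimplicity, on the endomorphisms of the `M i` or on their Hodge numbers.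

Let `T` be a set of primes, unramified in `F`, such that the `M i` have good reduction at all places
above the `p ∈ T` (finitely many `p` suffice), with Frobenius polynomials `P v i ∈ ℚ[X]`, which are
pure of weight `w`.  We say that `p` is *relation free* if there are only trivial multiplicative
relations between the roots of the `P v i` for `v` above `p` and all `i`: there are no multiple roots,
no root is real, and in a multiplicative relation complex conjugate roots have the same exponents (so
that the relation follows from `α * conj α = q v ^ w`).  This can be checked by a computation, and it is
the generic case: it holds if the Galois group of the product of the polynomials is as large as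
possible and the Newton polygons are not straight lines.

Theorem.  Let `ℓ` be ANY prime.  If `T` contains at least three primes different from `ℓ`, one of them
relation free (so: for all `ℓ`, if `T` has four elements, two of them relation free), then

* the representation `V ℓ = ⊕ V ℓ i` is semisimple, for all subgroups of finite index, and
* all homomorphisms `V ℓ ^ {⊗ s} (c) → V ℓ ^ {⊗ t} (d)` of representations of subgroups of finite
  index are linear combinations of products of Tate classes of degree two, that is, of
  homomorphisms between the `V ℓ i` over finite extensions.

So for every `ℓ` the Tate conjecture (surjectivity of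
`Hom(M, M') ⊗ ℚ_ℓ → Hom_{G_{F'}}(M_ℓ, M'_ℓ)`, for all finite extensions `F'` of `F`) for ALL pure
motives `M`, `M'` in the tensor category generated by the `M i` is equivalent to the Tate
conjecture for the homomorphisms between the `M i` themselves, and the semisimplicity conjecture
holds for all these motives.

The proof.  Let `U` be a stable subspace of `V ℓ i` on which the form is zero.  By the theorem on the
determinants of stable subspaces of `ℓ`-adic representations with algebraic Frobenius eigenvalues
(which rests on the `ℓ`-adic six exponentials theorem and on the uniqueness of the `ℤ_ℓ`-extension of
`ℚ`, library `Pool.Agent.Y115`), the product over `v` above `p` of the eigenvalues of Frobenius on `U` is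
a root of unity times a power of `p`, and these eigenvalues are disjoint from their complex
conjugates.  If `p` is relation free this shows that `U = 0`; so the orthogonal complement of a stable
subspace is a complement.  By the theorem of Clifford one gets semisimplicity under subgroups of
finite index, and the Lie algebra of the endomorphisms of `V ℓ` which kill all Tate classes contains
a Cartan subalgebra of the symplectic Lie algebra; over a finite extension of `ℚ_ℓ` it is a product of
symplectic and general linear Lie algebras, and the first fundamental theorems for these give the
result.
-/

set_option autoImplicit false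

namespace Pool.Agent.Results.MP_40dc3c_ag.DegreeTwoEveryPrime

open NumberField IsDedekindDomain Polynomial Pool.Agent.Y114.TF Pool.Agent.Y114.GF
  Pool.Agent.H204R3.GP

theorem result {F : Type} [Field F] [NumberField F] {ι : Type} [Fintype ι] {n : ι → ℕ}
    -- the `ℓ`-adic realizations of the `M i`, of weight `w`, and their polarizations
    (R : Realizations n Gal(AlgebraicClosure F/F)) (w : ℕ) (hR : IsSystem R w)
    -- places of good reduction
    (P : HeightOneSpectrum (𝓞 F) → ι → ℚ[X]) (T : Set ℕ)
    (hT : ∀ p ∈ T, p.Prime ∧ UnramifiedIn F p)
    (hP : ∀ p ∈ T, ∀ v, Above v p → GoodAt R w v (P v))
    -- a prime `ℓ`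
    (ℓ : ℕ) (hℓ : ℓ.Prime) (h3 : 3 ≤ (T \ {ℓ}).encard)
    (hfree : ∃ p ∈ T, p ≠ ℓ ∧ RelationFree P p) :
    ∃ _ : Fact ℓ.Prime, FiniteIndexSemisimple (sumRep (R.ρ ℓ)) ∧
      HomsGeneratedInDegreeTwo (sumRep (R.ρ ℓ)) (R.χ ℓ) (sumForm (R.ω ℓ)) := by
  obtain ⟨p, hp, hne, hf⟩ := hfree
  exact Data.main ⟨hR, hℓ, h3, hT, hP, hp, hne, hf⟩

end Pool.Agent.Results.MP_40dc3c_ag.DegreeTwoEveryPrime
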