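import Mathlib
import Pool.Agent.Y114.OP.MixComplete

/-!
# Tate classes on `X^m × Y` for an arbitrary variety `Y`, at every prime, from one element

Let `X → B` be a smooth projective family over a smooth variety `B` over `ℚ` (or a finite set of
families of pure motives `M i` over `B`; `B` can be a point), and let `Y → B` be ANY family of
varieties, not necessarily smooth or proper: singular, open, ..., of which we only use that the étale
homology groups (or cohomology groups with compact supports) of the fibres are lisse on `B`.

Let `Γ` be the fundamental group of `B`, `ρ ℓ i` the `ℓ`-adic realization of `M i`, pure of weight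
`w i`, for ALL prime numbers `ℓ`, and `V ℓ` the sum of the `ρ ℓ i`.  Let `τ ℓ j` be further
representations of `Γ`, for example `H_a(Y, ℚ_ℓ(b))` for all `a`, `b`.  NO semisimplicity is assumed
for `τ ℓ j`, and they may be mixed, with infinitely many geometric meanings for their Tate classes: we
only assume that the Frobenius polynomials are rational, independent of `ℓ`, and products of pure
polynomials of given weights (`MixedPoint`).

A rational point `b` of `B` gives a homomorphism `s` from the Galois group of `ℚ` to `Γ`; the member
over `b` has good reduction outside a finite set which depends on `b` (`GoodPoint`; the constant `c`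
is there for the twists).  `𝔤 ℓ` is the Lie algebra of the motivic Galois group of the sum of the
`M i`, or of another reductive group for which the tensors killed by `𝔤 ℓ` are Tate tensors; `r` is
its rank.

By the Künneth formula a Tate class on `X^m × Y` is a map from a tensor construction on `V` to a
`τ ℓ j` which is equivariant under the Galois group (over finite extensions: under a subgroup of
finite index), that is a multilinear map `Φ` in `m` variables in `V ⊕ V^*` with values in `τ ℓ j`
(`TateMap`).

Suppose that at ONE prime number `ℓ₀` there is ONE element `γ₀` of `Γ` with `r` eigenvalues on `V ℓ₀`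
which are multiplicatively independent modulo the group generated by the quotients of the eigenvalues
of `γ₀` on the same `τ ℓ₀ j` (`IndepAtModulo`): the Frobenius tori of `X` and of `Y` are independent
up to the weight.

Theorem.  There is an open neighbourhood `O` of `γ₀` such that for all points `b` for which the image
of `s` meets `O` (all points outside a thin set if `B` is open in an affine space) and for EVERY
prime number `ℓ`, both for the generic member and for the member over `b` (`TateTimes`)

* `V ℓ` is semisimple (for all subgroups of finite index);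
* the Lie algebra `𝔥` of the endomorphisms which kill all Tate tensors on `V ℓ` is a reductive
  subalgebra of `𝔤 ℓ` of rank `r`, and `𝔥 = 𝔤 ℓ` if the Tate classes in `V ⊗ V^*` are motivic;
* for every `j` all `Φ` as above are killed by the brackets of elements of `𝔥`: the Tate classes on
  `X^m × Y` are combinations of products of classes on `X^m` killed by `[𝔥, 𝔥]` and classes on `Y`.

So if `𝔤 ℓ` is the sum of `[𝔤 ℓ, 𝔤 ℓ]` and of homotheties (no complex multiplication part), and the
classes on the `X^m` which are killed by `𝔤 ℓ` are algebraic, then (with `𝔥 = 𝔤 ℓ`) the conjecture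
for `Y` implies the conjecture for all `X^m × Y`, for all `ℓ`.  For `Y` a point this is
`MP_c184fc_ag.OnePrimeEveryPrime`; that theorem says nothing about `X^m × Y`, since `Y` does not have
to satisfy any of the conditions on `X`.

The proof.  (1) The relations between the eigenvalues follow from bounded ones, also with linear side
conditions on the exponents (`S_REL2`), and the bounded relations are locally constant on `Γ`
(`S_ROOT2`).  So infinitely many Frobenius elements have the property assumed of `γ₀`, with the same
polynomials for all `ℓ`.  (2) Let `L'` be the Lie algebra attached to `V ⊕ W`, `W = τ ℓ j` (it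
preserves all subspaces stable under a subgroup of finite index and kills all Tate tensors), and `L`
its image on `V`.  `L` is contained in the Lie algebra of the Tate tensors of `V` and contains the
Frobenius tori; it is reductive (by an `ℓ`-adic six exponentials theorem for the determinant of `Γ`
on `L`, as in `MP_8f1292_ag.MaximalFrobeniusTorus`), its centralizer is fixed by a subgroup of finite
index, and so (`S_LAT`) it is EQUAL to the Lie algebra of the Tate tensors of `V`.  (3) In the
decomposition of `L'` under the Frobenius torus the weights are differences of weights on `V`, or on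
`W`, and the independence separates the two parts: so the brackets of `L` are in `L'`, with component
zero on `W` (`S_MIX`).  (4) `Φ` is a Tate tensor on `V ⊕ W`, killed by `L'`.
-/

set_option autoImplicit false

namespace Pool.Agent.Results.MP_40dc3c_ag.ProductsWithAnyVariety

open NumberField IsDedekindDomain Polynomial Module Pool.Agent.Y114.TF Pool.Agent.Y114.GF
  Pool.Agent.Y114.MU Pool.Agent.Y114.RM Pool.Agent.Y114.OP Pool.Agent.H204R3.GP

theorem result {Γ : Type} [Group Γ] [TopologicalSpace Γ] [IsTopologicalGroup Γ] [CompactSpace Γ]
    {ι : Type} [Fintype ι] [DecidableEq ι] {n : ι → ℕ} {κ : Type} [Fintype κ] {m : κ → ℕ}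
    {K : Type} [Fintype K]
    -- `X`: the `ℓ`-adic realizations of families of motives of weights `w i`
    (ρ : ∀ (ℓ : ℕ) [Fact ℓ.Prime], Reps Γ n ℓ) (hρ : ∀ (ℓ : ℕ) [Fact ℓ.Prime], Conts (ρ ℓ))
    (w : ι → ℤ)
    -- the Lie algebra of the motivic Galois group, of rank at most `r`
    (𝔤 : ∀ (ℓ : ℕ) [Fact ℓ.Prime], EndSpace n ℓ)
    (h𝔤 : ∀ (ℓ : ℕ) [Fact ℓ.Prime], Motivic (ρ ℓ) (𝔤 ℓ)) (r : ℕ)
    (hrank : ∀ (ℓ : ℕ) [Fact ℓ.Prime], RankLE (𝔤 ℓ) r)
    -- `Y`: arbitrary representations, mixed with weights `w'`
    (τ : ∀ (ℓ : ℕ) [Fact ℓ.Prime], Reps Γ m ℓ) (hτ : ∀ (ℓ : ℕ) [Fact ℓ.Prime], Conts (τ ℓ))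
    (w' : K → ℤ) (c : ℕ)
    -- one prime number `ℓ₀` and one element
    (ℓ₀ : ℕ) [Fact ℓ₀.Prime] (γ₀ : Γ) (hγ₀ : IndepAtModulo (ρ ℓ₀) (τ ℓ₀) r γ₀) :
    -- all points outside a thin set, and every prime number `ℓ`
    ∃ O : Set Γ, IsOpen O ∧ γ₀ ∈ O ∧ ∀ s : Gal(AlgebraicClosure ℚ/ℚ) →* Γ, GoodPoint ρ w c s →
      MixedPoint τ w' c s → (∃ g, s g ∈ O) → ∀ (ℓ : ℕ) [Fact ℓ.Prime],
        TateTimes (ρ ℓ) (τ ℓ) (𝔤 ℓ) r ∧
        TateTimes (restrictTo (ρ ℓ) s) (restrictTo (τ ℓ) s) (𝔤 ℓ) r :=
  Pool.Agent.Y114.OP.mix_complete ρ hρ w 𝔤 h𝔤 r hrank τ hτ w' c ℓ₀ γ₀ hγ₀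

end Pool.Agent.Results.MP_40dc3c_ag.ProductsWithAnyVariety
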