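import Pool.Agent.Y134.TF.Geo

/-!
# The Tate conjecture for products of powers from two Frobenius polynomials

Let `W` be a Weil cohomology theory with algebraically closed coefficients (étale cohomology with
coefficients in the closure of `ℚ_ℓ`) on a class of smooth projective varieties over the
algebraic closure of a number field or of a finitely generated field, with an action of a group `Γ`
(the Galois group) on the cohomology of the varieties under consideration; `χ` is the action on the
Tate twists.

Let `X` be a variety of even dimension `n` whose cohomology is the orthogonal sum of a space spanned by
some algebraic classes (of which nothing else is supposed) and of a subspace `P` of the cohomology in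
degree `n`, which comes with its form (up to the twist) from a representation `V` of `Γ` over a field
`K₀` of characteristic `0`: for instance a hypersurface, a complete intersection, a cyclic or double
covering of projective space (or a resolution of such a variety), and its primitive cohomology
`V = P^n(X, ℚ_ℓ)(n / 2)` over `K₀ = ℚ_ℓ`. For two elements
`g₁`, `g₂` of `Γ` (in the applications: Frobenius elements at two places) let `(X - ε₁) R₁` and
`(X - ε₂) R₂` be the characteristic polynomials on `V`, where `ε₁ = 1` or `ε₁ = -1`. (If the dimension
of `V` is odd, `1` or `-1` is a root of the characteristic polynomial of every isometry.) Suppose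
(`TwoPolynomials`):

* `R₁` is irreducible over `K₀`, its degree is not `1`, and no quotient of two different roots of
  `(X - ε₁) R₁` is a root of unity;
* `1` and `-1` are not roots of `R₂`;
* the number `R₁(1) R₁(-1) R₂(1) R₂(-1)` is not a square in `K₀`.

NOTHING is supposed about the image of the Galois group (irreducibility, monodromy, semisimplicity),
about the algebraic classes of `X` (standard conjectures) or about its Hodge numbers.

**Theorem, first part.** Numerical and homological equivalence coincide for `X` (the class of a cycle
which is orthogonal to the classes of all cycles is zero); the transcendental cohomology of `X`, the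
orthogonal complement of all algebraic classes, is `P`; and it is irreducible over the algebraically
closed field under all subgroups of finite index of `Γ`.

(In particular there are no Tate classes in `P` over any extension, and the Tate classes of `P ⊗ P` are
the multiples of the class of the form.)

For a family of such varieties `X_i` and an arbitrary variety `Z` suppose moreover that one root `a` of
the polynomial of `g₁` on `V_i` is isolated (`IsolatedRoot`; `~` is the equality up to a root of unity):
`a δ ~ β γ` for roots `β`, `γ`, `δ` only if `β = a` or `γ = a` or `a δ ~ 1`; and `(β / a) ^ m`, `m > 0`, is
not in the group generated by the eigenvalues of `g₁` on the cohomology of `Z` and of the other `X_j` for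
any root `β ≠ a`. (Both hold if there are only the trivial multiplicative relations between the roots of
`R₁` and these eigenvalues.)

**Theorem, second part.** Let `Y` be the product of `Z` and of powers `X_i ^ (n_i + 1)` of some of the
`X_i` with `n_i + 1 < dim V_i`. Then the Tate conjecture, for cycles of all codimensions, holds for `Y`
if and only if it holds for `Z`.

So the Tate conjecture for all `X ^ n`, `n < dim V`, and for `X ^ n × Z` if it holds for `Z`, follows
from numerical conditions on the characteristic polynomials of the Frobenius elements at two places.
The first part is new also in the theorem `IsolatedEigenvalues` on products of powers, in which the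
irreducibility under all subgroups of finite index is a hypothesis; that theorem is used for the second
part.

Example (the numbers of points were computed outside of Lean). Let
`F = 2 x^5 (y + z)^3 - 4 y^5 (x + z)^3 + x^4 y z (y + z)^2 + 7 y^3 z^5 - 2 y^4 z^4 - 2 x y^3 z^4`
`- 3 x y^4 z^3 - 7 x^2 y^2 z^4 + 6 x^2 y^3 z^3 + 3 x^2 y^4 z^2 - 7 x^3 y^3 z^2 - 3 x^3 y^4 z`.
The octic curve `F = 0` has genus `10` and three simple singularities, of the types `E_8`, `E_8` and
`E_6`; the resolution `X` of the double plane `w ^ 2 = F` is a surface of general type with geometric
genus `3`, `H ^ 2(X)` is the sum of `23` classes of curves and of a space `P` of dimension `21`. At the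
place `3` one finds `ε₁ = -1` and `3 ^ 20 R₁(X / 3) = X^20 - 7 X^19 + 28 X^18 - 87 X^17 + 201 X^16`
`- 432 X^15 + 405 X^14 + 1944 X^13 - 12636 X^12 + 50301 X^11 - 150903 X^10 + ...`, which is irreducible
modulo `2` and has a Galois group of order `2 ^ 10 10!`, so that there are only the trivial
multiplicative relations between its roots. The numerators of the zeta functions of the normalization
of `F = 0` at the places `3` and `5`,
`1 - T + 3 T^3 - 3 T^4 - 4 T^5 + 31 T^6 - 50 T^7 + 26 T^8 + 51 T^9 - 109 T^10 + ...` and
`1 + 3 T + 12 T^2 + 40 T^3 + 95 T^4 + 227 T^5 + 501 T^6 + 891 T^7 + 1842 T^8 + 3641 T^9 + 7031 T^10 + ...`,
show that `R₁(1) R₁(-1) R₂(1) R₂(-1)` is not a square in `ℚ_2` (see the theorem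
`DoubleCoversTwoPlaces`: both have odd values at `1`, and the sums of the coefficients in the degrees
`9, 7, 5, 3, 1` have different parity). So the Tate conjecture for `ℓ = 2` holds in all codimensions for
`X ^ n`, `n ≤ 20`, over all number fields.

Proof of the first part. The eigenvector of `g₁` for `ε₁` is not isotropic. If its orbit under a
subgroup of finite index did not span `V`, then by the irreducibility of `R₁` and the condition on the
quotients its line would be stable under this subgroup, and, as its sign character is trivial on a
smaller subgroup `N`, which can be taken to be normal, and the vectors fixed by `N` are in this line by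
the same argument, the line would be stable under `Γ`. On its complement both `f - f⁻¹` for the two
isometries are alternating with respect to the form, so that the product of their determinants, which
are `R_i(1) R_i(-1)`, would be a square. So every orbit of the eigenvector spans `V` over `K₀`, and hence
`P` over the algebraically closed field; a stable subspace of `P` which does not contain the
eigenvector is orthogonal to it, since the projection to the line is a polynomial in a power of `g₁`,
and its orthogonal complement contains the orbit.
-/

set_option autoImplicit false

universe u

namespace Pool.Agent.Results.MP_40dc3c_ag.TwoFrobeniusPolynomials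

open Pool.Agent.H914 Pool.Agent.TH125.Gal Pool.Agent.Y130 Pool.Agent.Y134.TF

/-- **The Tate conjecture for products of powers from two Frobenius polynomials.** -/
theorem result {k : Type u} [Field k] {𝒱 : VarClass k} {ops : CycleOps 𝒱}
    (W : WeilCohomology.{u, 0} ops) [IsAlgClosed W.K] {Γ : Type} [Group Γ] (χ : Γ →* W.Kˣ)
    {ι : Type} (X : ι → PVar W Γ) (Z : GVar W Γ)
    (h : ∀ i, (X i).Two χ (otherEig (fun j => (X j).toGVar) Z i)) :
    (∀ i, (X i).Trans) ∧ ∀ (S : Set ι) (Y : GVar W Γ),
      PTower (fun i => (X i).toGVar) Z (fun i n => n + 1 < (X i).rank) S Y →
      (TateConjecture χ Y ↔ TateConjecture χ Z) :=
  ⟨fun i => (twoVar (h i)).2.1, fun _ _ hY => tate_two h hY⟩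

end Pool.Agent.Results.MP_40dc3c_ag.TwoFrobeniusPolynomials
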